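import Pool.Agent.H717.NL.Stmts2

/-!
# Sorted eigenvalues and adapted orthonormal eigenbases
-/

set_option autoImplicit false

open Polynomial

namespace Pool.Agent.H196.NL

open Pool.Agent.H717.NL

theorem herm {n : ℕ} {M : Matrix (Fin n) (Fin n) ℝ} (h : M.IsSymm) : M.IsHermitian := by
  rw [Matrix.IsHermitian, Matrix.conjTranspose_eq_transpose_of_trivial]
  exact h

theorem cp {n : ℕ} {M : Matrix (Fin n) (Fin n) ℝ} (h : M.IsHermitian) :
    M.charpoly = ∏ i, (X - C (h.eigenvalues i)) := by
  have := h.charpoly_eq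
  simpa using this

theorem t_spec : S_spec := by
  intro n M hM
  have h := herm hM
  refine ⟨h.eigenvalues ∘ Tuple.sort h.eigenvalues, Tuple.monotone_sort _, ?_⟩
  rw [cp h]
  exact (Equiv.prod_comp (Tuple.sort h.eigenvalues) (fun i => X - C (h.eigenvalues i))).symm

theorem roots_prod {n : ℕ} (l : Fin n → ℝ) :
    (∏ i, (X - C (l i))).roots = Finset.univ.val.map l := by
  have h1 : ∏ i, (X - C (l i)) = ((Finset.univ.val.map l).map fun a => X - C a).prod := by
    rw [Multiset.map_map]
    rfl
  rw [h1, Polynomial.roots_multiset_prod_X_sub_C]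

theorem t_basis : S_basis := by
  intro n M l hM hl
  have h := herm hM
  have h1 : ∏ i, (X - C (l i)) = ∏ i, (X - C (h.eigenvalues i)) := by rw [← hl.2, cp h]
  have h2 := congrArg Polynomial.roots h1
  rw [roots_prod, roots_prod, Fin.univ_val_map, Fin.univ_val_map, Multiset.coe_eq_coe] at h2
  have h3 : (List.ofFn (h.eigenvalues ∘ Tuple.sort h.eigenvalues)).Perm
      (List.ofFn h.eigenvalues) :=
    Equiv.Perm.ofFn_comp_perm _ _
  have h4 : List.ofFn l = List.ofFn (h.eigenvalues ∘ Tuple.sort h.eigenvalues) :=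
    List.Perm.eq_of_sortedLE (List.sortedLE_ofFn_iff.2 hl.1)
      (List.sortedLE_ofFn_iff.2 (Tuple.monotone_sort _)) (h2.trans h3.symm)
  have h5 : l = h.eigenvalues ∘ Tuple.sort h.eigenvalues := List.ofFn_injective h4
  refine ⟨fun i => ⇑(h.eigenvectorBasis (Tuple.sort h.eigenvalues i)), fun i j => ?_,
    fun i => ?_⟩
  · have h6 := orthonormal_iff_ite.1 h.eigenvectorBasis.orthonormal
      (Tuple.sort h.eigenvalues j) (Tuple.sort h.eigenvalues i)
    rw [PiLp.inner_apply] at h6
    simp only [RCLike.inner_apply, conj_trivial, (Tuple.sort h.eigenvalues).injective.eq_iff] at h6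
    rw [h6]
    by_cases hij : i = j
    · rw [if_pos hij, if_pos hij.symm]
    · rw [if_neg hij, if_neg (fun h => hij h.symm)]
  · rw [h5]
    exact h.mulVec_eigenvectorBasis _

end Pool.Agent.H196.NL
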